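import Pool.Agent.helper60.DB.SpecM

/-!
# Row bm:TF (MP_fb2c2a_nt): the triple of the addition formulas
-/

set_option autoImplicit false

namespace Pool.Agent.helper60.DB

open Polynomial

theorem TF_ne {K : Type} [Field K] {N D : K[X]} (h : IsCoprime N D) :
    N.coeff (max N.natDegree D.natDegree) ≠ 0 ∨ D.coeff (max N.natDegree D.natDegree) ≠ 0 := by
  by_contra hc
  push Not at hc
  obtain ⟨h1, h2⟩ := hc
  rcases le_total N.natDegree D.natDegree with h3 | h3
  · rw [max_eq_right h3] at h1 h2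
    have h4 : D = 0 := Polynomial.leadingCoeff_eq_zero.mp h2
    subst h4
    have h5 : N.natDegree = 0 := by
      rw [Polynomial.natDegree_zero] at h3
      omega
    have h6 : N = 0 := by
      apply Polynomial.leadingCoeff_eq_zero.mp
      rw [Polynomial.leadingCoeff, h5]
      rw [Polynomial.natDegree_zero] at h1
      exact h1
    subst h6
    exact not_isCoprime_zero_zero h
  · rw [max_eq_left h3] at h1 h2
    have h4 : N = 0 := Polynomial.leadingCoeff_eq_zero.mp h1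
    subst h4
    have h5 : D.natDegree = 0 := by
      rw [Polynomial.natDegree_zero] at h3
      omega
    have h6 : D = 0 := by
      apply Polynomial.leadingCoeff_eq_zero.mp
      rw [Polynomial.leadingCoeff, h5]
      rw [Polynomial.natDegree_zero] at h2
      exact h2
    subst h6
    exact not_isCoprime_zero_zero h

theorem TF_uni (hZ : ZE_stmt) (K : Type) [Field K] [CharZero K] (A' B' : K) (N1 D1 N2 D2 : K[X])
    (hB : B' ≠ 0) (hA : A' ^ 2 ≠ 4 * B') (h1 : IsCoprime N1 D1) (h2 : IsCoprime N2 D2) :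
    ∃ u v w : K[X], u * (N1 * D2 - N2 * D1) ^ 2
      + v * (2 * ((N1 * D2 + N2 * D1) * (D1 * D2 + C B' * N1 * N2) + 2 * C A' * N1 * N2 * D1 * D2))
      + w * (D1 * D2 - C B' * N1 * N2) ^ 2 = 1 := by
  by_contra hne
  obtain ⟨I, hI⟩ : ∃ I : Ideal K[X], I = Ideal.span {(N1 * D2 - N2 * D1) ^ 2,
      2 * ((N1 * D2 + N2 * D1) * (D1 * D2 + C B' * N1 * N2) + 2 * C A' * N1 * N2 * D1 * D2),
      (D1 * D2 - C B' * N1 * N2) ^ 2} := ⟨_, rfl⟩
  have hIt : I ≠ ⊤ := by
    intro ht
    apply hne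
    have h3 : (1 : K[X]) ∈ I := by
      rw [ht]
      exact Submodule.mem_top
    rw [hI, Ideal.mem_span_insert] at h3
    obtain ⟨u, z, hz, h4⟩ := h3
    rw [Ideal.mem_span_insert] at hz
    obtain ⟨v, z', hz', h5⟩ := hz
    rw [Ideal.mem_span_singleton] at hz'
    obtain ⟨w, h6⟩ := hz'
    refine ⟨u, v, w, ?_⟩
    rw [h4, h5, h6]
    ring
  obtain ⟨M, hM, hIM⟩ := Ideal.exists_le_maximal I hIt
  letI : Field (K[X] ⧸ M) := Ideal.Quotient.field M
  obtain ⟨q, hq⟩ : ∃ q : K[X] →+* K[X] ⧸ M, q = Ideal.Quotient.mk M := ⟨_, rfl⟩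
  have hq0 : ∀ f ∈ I, q f = 0 := by
    intro f hf
    rw [hq]
    exact Ideal.Quotient.eq_zero_iff_mem.mpr (hIM hf)
  have m2 : (N1 * D2 - N2 * D1) ^ 2 ∈ I := by
    rw [hI]
    exact Ideal.subset_span (by simp)
  have m1 : 2 * ((N1 * D2 + N2 * D1) * (D1 * D2 + C B' * N1 * N2) + 2 * C A' * N1 * N2 * D1 * D2)
      ∈ I := by
    rw [hI]
    exact Ideal.subset_span (by simp)
  have m0 : (D1 * D2 - C B' * N1 * N2) ^ 2 ∈ I := by
    rw [hI]
    exact Ideal.subset_span (by simp)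
  have e2 := hq0 _ m2
  have e1 := hq0 _ m1
  have e0 := hq0 _ m0
  have hinj : Function.Injective (q.comp (C : K →+* K[X])) := RingHom.injective _
  have h2F : (2 : K[X] ⧸ M) ≠ 0 := by
    intro h3
    have h4 : (q.comp (C : K →+* K[X])) 2 = (q.comp (C : K →+* K[X])) 0 := by
      rw [map_ofNat, map_zero, h3]
    exact two_ne_zero (hinj h4)
  have hBF : q (C B') ≠ 0 := by
    intro h3
    apply hB
    apply hinj
    rw [map_zero]
    exact h3
  have hAF : q (C A') ^ 2 ≠ 4 * q (C B') := by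
    intro h3
    apply hA
    apply hinj
    rw [map_pow, map_mul, map_ofNat]
    exact h3
  have hc : ∀ N D : K[X], IsCoprime N D → q N ≠ 0 ∨ q D ≠ 0 := by
    intro N D h
    by_contra hcc
    push Not at hcc
    obtain ⟨a, b, hab⟩ := h
    have h3 := congrArg q hab
    rw [map_add, map_mul, map_mul, hcc.1, hcc.2, mul_zero, mul_zero, add_zero, map_one] at h3
    exact zero_ne_one h3
  refine hZ (K[X] ⧸ M) (q (C A')) (q (C B')) (q N1) (q D1) (q N2) (q D2) h2F hBF hAF (hc _ _ h1)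
    (hc _ _ h2) ?_ ?_ ?_
  · rw [map_pow] at e0
    have h3 : q (D1 * D2 - C B' * N1 * N2) = 0 := by
      by_contra h4
      exact pow_ne_zero 2 h4 e0
    rw [map_sub, map_mul, map_mul, map_mul] at h3
    exact h3
  · rw [map_pow] at e2
    have h3 : q (N1 * D2 - N2 * D1) = 0 := by
      by_contra h4
      exact pow_ne_zero 2 h4 e2
    rw [map_sub, map_mul, map_mul] at h3
    exact h3
  · rw [map_mul, map_ofNat] at e1
    have h3 := (mul_eq_zero.mp e1).resolve_left h2F
    simp only [map_add, map_mul, map_ofNat] at h3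
    exact h3

theorem TF_deg (hZ : ZE_stmt) (K : Type) [Field K] [CharZero K] (A' B' : K) (N1 D1 N2 D2 : K[X])
    (hB : B' ≠ 0) (hA : A' ^ 2 ≠ 4 * B') (h1 : IsCoprime N1 D1) (h2 : IsCoprime N2 D2) (a b : ℕ)
    (ha : a = max N1.natDegree D1.natDegree) (hb : b = max N2.natDegree D2.natDegree) :
    max ((N1 * D2 - N2 * D1) ^ 2).natDegree (max
      (2 * ((N1 * D2 + N2 * D1) * (D1 * D2 + C B' * N1 * N2) +
        2 * C A' * N1 * N2 * D1 * D2)).natDegree ((D1 * D2 - C B' * N1 * N2) ^ 2).natDegree)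
    = 2 * (a + b) := by
  have n1 : N1.natDegree ≤ a := ha ▸ le_max_left _ _
  have d1 : D1.natDegree ≤ a := ha ▸ le_max_right _ _
  have n2 : N2.natDegree ≤ b := hb ▸ le_max_left _ _
  have d2 : D2.natDegree ≤ b := hb ▸ le_max_right _ _
  have hCm : ∀ (c : K) (f : K[X]), (C c * f).natDegree ≤ f.natDegree :=
    fun c f => Polynomial.natDegree_C_mul_le c f
  -- degrees of the products
  have p1 : (N1 * D2).natDegree ≤ a + b := Polynomial.natDegree_mul_le_of_le n1 d2
  have p2 : (D1 * N2).natDegree ≤ a + b := Polynomial.natDegree_mul_le_of_le d1 n2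
  have p3 : (D1 * D2).natDegree ≤ a + b := Polynomial.natDegree_mul_le_of_le d1 d2
  have p4 : (N1 * N2).natDegree ≤ a + b := Polynomial.natDegree_mul_le_of_le n1 n2
  have p5 : (C B' * (N1 * N2)).natDegree ≤ a + b := (hCm _ _).trans p4
  have q1 : (N1 * D2).coeff (a + b) = N1.coeff a * D2.coeff b :=
    Polynomial.coeff_mul_add_eq_of_natDegree_le n1 d2
  have q2 : (D1 * N2).coeff (a + b) = D1.coeff a * N2.coeff b :=
    Polynomial.coeff_mul_add_eq_of_natDegree_le d1 n2
  have q3 : (D1 * D2).coeff (a + b) = D1.coeff a * D2.coeff b :=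
    Polynomial.coeff_mul_add_eq_of_natDegree_le d1 d2
  have q4 : (N1 * N2).coeff (a + b) = N1.coeff a * N2.coeff b :=
    Polynomial.coeff_mul_add_eq_of_natDegree_le n1 n2
  have q5 : (C B' * (N1 * N2)).coeff (a + b) = B' * (N1.coeff a * N2.coeff b) := by
    rw [Polynomial.coeff_C_mul, q4]
  -- rewriting the three polynomials
  have r2 : (N1 * D2 - N2 * D1) ^ 2 = (N1 * D2 - D1 * N2) ^ 2 := by ring
  have r1 : 2 * ((N1 * D2 + N2 * D1) * (D1 * D2 + C B' * N1 * N2) + 2 * C A' * N1 * N2 * D1 * D2)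
      = C 2 * ((N1 * D2 + D1 * N2) * (D1 * D2 + C B' * (N1 * N2)) +
        C (2 * A') * ((N1 * N2) * (D1 * D2))) := by
    rw [C_mul, show (C 2 : K[X]) = 2 from rfl]
    ring
  have r0 : (D1 * D2 - C B' * N1 * N2) ^ 2 = (D1 * D2 - C B' * (N1 * N2)) ^ 2 := by ring
  rw [r2, r1, r0]
  have s2 : (N1 * D2 - D1 * N2).natDegree ≤ a + b :=
    (Polynomial.natDegree_sub_le_of_le p1 p2).trans (by simp)
  have s1 : (N1 * D2 + D1 * N2).natDegree ≤ a + b :=
    (Polynomial.natDegree_add_le_of_le p1 p2).trans (by simp)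
  have s1' : (D1 * D2 + C B' * (N1 * N2)).natDegree ≤ a + b :=
    (Polynomial.natDegree_add_le_of_le p3 p5).trans (by simp)
  have s0 : (D1 * D2 - C B' * (N1 * N2)).natDegree ≤ a + b :=
    (Polynomial.natDegree_sub_le_of_le p3 p5).trans (by simp)
  have s3 : ((N1 * D2 + D1 * N2) * (D1 * D2 + C B' * (N1 * N2))).natDegree ≤ (a + b) + (a + b) :=
    Polynomial.natDegree_mul_le_of_le s1 s1'
  have s4 : ((N1 * N2) * (D1 * D2)).natDegree ≤ (a + b) + (a + b) :=
    Polynomial.natDegree_mul_le_of_le p4 p3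
  have s5 : (C (2 * A') * ((N1 * N2) * (D1 * D2))).natDegree ≤ (a + b) + (a + b) :=
    (hCm _ _).trans s4
  have t2 : ((N1 * D2 - D1 * N2) ^ 2).natDegree ≤ 2 * (a + b) :=
    Polynomial.natDegree_pow_le_of_le 2 s2
  have t0 : ((D1 * D2 - C B' * (N1 * N2)) ^ 2).natDegree ≤ 2 * (a + b) :=
    Polynomial.natDegree_pow_le_of_le 2 s0
  have t1 : (C 2 * ((N1 * D2 + D1 * N2) * (D1 * D2 + C B' * (N1 * N2)) +
        C (2 * A') * ((N1 * N2) * (D1 * D2)))).natDegree ≤ 2 * (a + b) := by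
    refine (hCm _ _).trans ((Polynomial.natDegree_add_le_of_le s3 s5).trans ?_)
    rw [max_self]
    omega
  apply le_antisymm (max_le t2 (max_le t1 t0))
  by_contra hlt
  push Not at hlt
  have w2 : ((N1 * D2 - D1 * N2) ^ 2).coeff (2 * (a + b)) = 0 := by
    by_contra h3
    have h4 := Polynomial.le_natDegree_of_ne_zero h3
    exact absurd (lt_of_le_of_lt (le_max_left _ _) hlt) (not_lt.mpr h4)
  have w1 : (C 2 * ((N1 * D2 + D1 * N2) * (D1 * D2 + C B' * (N1 * N2)) +
        C (2 * A') * ((N1 * N2) * (D1 * D2)))).coeff (2 * (a + b)) = 0 := by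
    by_contra h3
    have h4 := Polynomial.le_natDegree_of_ne_zero h3
    exact absurd (lt_of_le_of_lt ((le_max_left _ _).trans (le_max_right _ _)) hlt) (not_lt.mpr h4)
  have w0 : ((D1 * D2 - C B' * (N1 * N2)) ^ 2).coeff (2 * (a + b)) = 0 := by
    by_contra h3
    have h4 := Polynomial.le_natDegree_of_ne_zero h3
    exact absurd (lt_of_le_of_lt ((le_max_right _ _).trans (le_max_right _ _)) hlt) (not_lt.mpr h4)
  rw [Polynomial.coeff_pow_of_natDegree_le s2, Polynomial.coeff_sub, q1, q2] at w2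
  rw [Polynomial.coeff_pow_of_natDegree_le s0, Polynomial.coeff_sub, q3, q5] at w0
  rw [show 2 * (a + b) = (a + b) + (a + b) by omega, Polynomial.coeff_C_mul, Polynomial.coeff_add,
    Polynomial.coeff_mul_add_eq_of_natDegree_le s1 s1', Polynomial.coeff_C_mul,
    Polynomial.coeff_mul_add_eq_of_natDegree_le p4 p3, Polynomial.coeff_add, Polynomial.coeff_add, q1, q2,
    q3, q4, q5] at w1
  have v2 : N1.coeff a * D2.coeff b - D1.coeff a * N2.coeff b = 0 := by
    by_contra h3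
    exact pow_ne_zero 2 h3 w2
  have v0 : D1.coeff a * D2.coeff b - B' * (N1.coeff a * N2.coeff b) = 0 := by
    by_contra h3
    exact pow_ne_zero 2 h3 w0
  have v1 := (mul_eq_zero.mp w1).resolve_left two_ne_zero
  have c1 : N1.coeff a ≠ 0 ∨ D1.coeff a ≠ 0 := by
    rw [ha]
    exact TF_ne h1
  have c2 : N2.coeff b ≠ 0 ∨ D2.coeff b ≠ 0 := by
    rw [hb]
    exact TF_ne h2
  refine hZ K A' B' (N1.coeff a) (D1.coeff a) (N2.coeff b) (D2.coeff b) two_ne_zero hB hA c1 c2
    ?_ ?_ ?_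
  · linear_combination v0
  · linear_combination v2
  · linear_combination v1

theorem TF (hZ : ZE_stmt) : TF_stmt := by
  intro K _ _ A' B' N1 D1 N2 D2 hB hA h1 h2
  exact ⟨TF_uni hZ K A' B' N1 D1 N2 D2 hB hA h1 h2,
    TF_deg hZ K A' B' N1 D1 N2 D2 hB hA h1 h2 _ _ rfl rfl⟩

end Pool.Agent.helper60.DB
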